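import Pool.Agent.TH275.AL.Mixture

/-!
# Certificates for the covariance inequality
-/

set_option autoImplicit false
set_option linter.unusedSectionVars false

namespace Pool.Agent.TH275.AC

open Finset Pool.Agent.H722R2.AA Pool.Agent.H746R2.AA Pool.Agent.TH275.AL

variable {ι : Type*} [Fintype ι] [DecidableEq ι]

/-- A certificate. -/
def Cert (f : (ι → ℤˣ) → ℝ) (w : ι → ℝ) : Prop :=
  ∃ q : ι → (ι → ℤˣ) → ℝ, (∀ l x u, q l (Function.update x l u) = q l x) ∧
    (∀ x, f x = Ex f + ∑ l, sg x l * q l x) ∧ ∀ l, nrm (q l) ≤ w l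

lemma Cert.cov {f : (ι → ℤˣ) → ℝ} {w : ι → ℝ} (hf : Cert f w) (h : (ι → ℤˣ) → ℝ) :
    |Cov f h| ≤ ∑ l, w l * nrm (D h l) := by
  obtain ⟨q, hq1, hq2, hq3⟩ := hf
  rw [Cov_formula f h (Ex f) q hq1 hq2, Ex_sum]
  refine (Finset.abs_sum_le_sum_abs _ _).trans (Finset.sum_le_sum fun l _ => ?_)
  refine (abs_Ex_mul_le _ _).trans ?_
  exact mul_le_mul_of_nonneg_right (hq3 l) (nrm_nonneg _)

lemma cert_fn (g : (ι → ℤˣ) → ℝ) : Cert g (fun j => nrm (D g j)) := by
  obtain ⟨q, hq1, hq2, hq3⟩ := mart g Finset.univ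
  refine ⟨q, hq1, fun x => ?_, hq3⟩
  have h := hq2 x
  simp only [Finset.piecewise_univ] at h
  exact h

/-- Average over the coordinates outside `V`. -/
noncomputable def av (V : Finset ι) (q : (ι → ℤˣ) → ℝ) (x : ι → ℤˣ) : ℝ :=
  Ex (fun z => q (Vᶜ.piecewise z x))

lemma av_congr (V : Finset ι) (q : (ι → ℤˣ) → ℝ) (x y : ι → ℤˣ) (h : ∀ j ∈ V, x j = y j) :
    av V q x = av V q y := by
  unfold av
  refine Ex_congr fun z => ?_
  congr 1
  ext i
  by_cases hi : i ∈ V
  · simp [hi, h i hi]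
  · simp [hi]

lemma av_nrm (V : Finset ι) (q : (ι → ℤˣ) → ℝ) : nrm (av V q) ≤ nrm q := nrm_part_le Vᶜ q

lemma cert_restrict {f : (ι → ℤˣ) → ℝ} {w : ι → ℝ} (hf : Cert f w) (V : Finset ι)
    (hV : ∀ x y, (∀ j ∈ V, x j = y j) → f x = f y) :
    ∃ q : ι → (ι → ℤˣ) → ℝ, (∀ l x u, q l (Function.update x l u) = q l x) ∧
      (∀ x, f x = Ex f + ∑ l ∈ V, sg x l * q l x) ∧ (∀ l, nrm (q l) ≤ w l) ∧
      ∀ l x y, (∀ j ∈ V, x j = y j) → q l x = q l y := by
  obtain ⟨q, hq1, hq2, hq3⟩ := hf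
  refine ⟨fun l => av V (q l), fun l x u => ?_, fun x => ?_, fun l => (av_nrm V _).trans (hq3 l),
    fun l x y h => av_congr V (q l) x y h⟩
  · unfold av
    refine Ex_congr fun z => ?_
    by_cases hl : l ∈ V
    · have h1 : Vᶜ.piecewise z (Function.update x l u)
          = Function.update (Vᶜ.piecewise z x) l u := by
        ext i
        by_cases hi : i = l
        · subst hi; simp [hl]
        · by_cases hiV : i ∈ V <;> simp [hi, hiV]
      rw [h1, hq1]
    · congr 1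
      ext i
      by_cases hiV : i ∈ V
      · have : i ≠ l := fun h => hl (h ▸ hiV)
        simp [hiV, this]
      · simp [hiV]
  · have h1 : f x = Ex (fun z => f (Vᶜ.piecewise z x)) := by
      have h2 : ∀ z, f (Vᶜ.piecewise z x) = f x := fun z => hV _ _ fun j hj => by simp [hj]
      rw [Ex_congr h2, Ex_const]
    rw [h1, Ex_congr fun z => hq2 (Vᶜ.piecewise z x), Ex_add, Ex_const, Ex_sum]
    congr 1
    rw [← Finset.sum_subset (Finset.subset_univ V)]
    · refine Finset.sum_congr rfl fun l hl => ?_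
      unfold av
      rw [← Ex_mul_left]
      refine Ex_congr fun z => ?_
      have h2 : sg (Vᶜ.piecewise z x) l = sg x l := by
        unfold sg; simp [hl]
      rw [h2]
    · intro l _ hl
      have h2 : ∀ z, sg (Vᶜ.piecewise z x) l * q l (Vᶜ.piecewise z x)
          = sg z l * q l (Vᶜ.piecewise z x) := by
        intro z
        have : sg (Vᶜ.piecewise z x) l = sg z l := by
          unfold sg; simp [hl]
        rw [this]
      rw [Ex_congr h2]
      refine Ex_sg_zero l (fun z => q l (Vᶜ.piecewise z x)) fun z u => ?_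
      have h3 : Vᶜ.piecewise (Function.update z l u) x
          = Function.update (Vᶜ.piecewise z x) l u := by
        ext i
        by_cases hi : i = l
        · subst hi; simp [hl]
        · by_cases hiV : i ∈ V <;> simp [hi, hiV]
      rw [h3, hq1]

lemma nrm_mul_le {q B : (ι → ℤˣ) → ℝ} (hB : ∀ x, |B x| ≤ 1) :
    nrm (fun x => q x * B x) ≤ nrm q := by
  unfold nrm
  refine Real.sqrt_le_sqrt (Ex_mono fun x => ?_)
  rw [mul_pow]
  have h1 : B x ^ 2 ≤ 1 := by
    rw [← sq_abs]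
    have := hB x
    have := abs_nonneg (B x)
    nlinarith
  nlinarith [sq_nonneg (q x)]

lemma nrm_add_le (f g : (ι → ℤˣ) → ℝ) : nrm (fun x => f x + g x) ≤ nrm f + nrm g := by
  have h := nrm_sum_le (Finset.univ : Finset (Fin 2)) ![f, g]
  simpa [Fin.sum_univ_two] using h

/-- Branching. -/
lemma cert_ask {g f₁ f₂ : (ι → ℤˣ) → ℝ} {w w₁ w₂ : ι → ℝ} (hg : Cert g w) (h₁ : Cert f₁ w₁)
    (h₂ : Cert f₂ w₂) (hg1 : ∀ x, |g x| ≤ 1) (hb₁ : ∀ x, |f₁ x| ≤ 1) (hb₂ : ∀ x, |f₂ x| ≤ 1)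
    (V : Finset ι) (hV : ∀ x y, (∀ j ∈ V, x j = y j) → g x = g y)
    (hd : ∀ x y, (∀ j ∉ V, x j = y j) → f₁ x - f₂ x = f₁ y - f₂ y) :
    Cert (fun x => (1 + g x) / 2 * f₁ x + (1 - g x) / 2 * f₂ x)
      (fun j => (if j ∈ V then w j else 0) + ((1 + Ex g) / 2 * w₁ j + (1 - Ex g) / 2 * w₂ j)) := by
  obtain ⟨q, hq1, hq2, hq3, hq4⟩ := cert_restrict hg V hV
  obtain ⟨p₁, hp1, hp2, hp3⟩ := h₁
  obtain ⟨p₂, hr1, hr2, hr3⟩ := h₂
  set μ := Ex g with hμ
  have hμ1 : |μ| ≤ 1 := (abs_Ex_le g).trans (Ex_le_const hg1)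
  obtain ⟨hμa, hμb⟩ := abs_le.1 hμ1
  set B : (ι → ℤˣ) → ℝ := fun x => (f₁ x - f₂ x) / 2 with hB
  have hBb : ∀ x, |B x| ≤ 1 := by
    intro x
    have e1 := abs_le.1 (hb₁ x)
    have e2 := abs_le.1 (hb₂ x)
    simp only [hB]
    rw [abs_le]
    constructor <;> linarith [e1.1, e1.2, e2.1, e2.2]
  have hBind : ∀ l ∈ V, ∀ x u, B (Function.update x l u) = B x := by
    intro l hl x u
    simp only [hB]
    rw [hd (Function.update x l u) x fun j hj => ?_]
    have : j ≠ l := fun h => hj (h ▸ hl)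
    simp [this]
  set Q : ι → (ι → ℤˣ) → ℝ := fun l x => (if l ∈ V then q l x * B x else 0)
    + ((1 + μ) / 2 * p₁ l x + (1 - μ) / 2 * p₂ l x) with hQ
  have hQ1 : ∀ l x u, Q l (Function.update x l u) = Q l x := by
    intro l x u
    simp only [hQ]
    rw [hp1, hr1]
    by_cases hl : l ∈ V
    · rw [if_pos hl, if_pos hl, hq1, hBind l hl]
    · rw [if_neg hl, if_neg hl]
  have hrep : ∀ x, (1 + g x) / 2 * f₁ x + (1 - g x) / 2 * f₂ x
      = ((1 + μ) / 2 * Ex f₁ + (1 - μ) / 2 * Ex f₂) + ∑ l, sg x l * Q l x := by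
    intro x
    have e1 : ∑ l, sg x l * Q l x = (∑ l ∈ V, sg x l * q l x) * B x
        + ((1 + μ) / 2 * ∑ l, sg x l * p₁ l x + (1 - μ) / 2 * ∑ l, sg x l * p₂ l x) := by
      simp only [hQ, mul_add, Finset.sum_add_distrib]
      congr 1
      · rw [Finset.sum_mul, ← Finset.sum_subset (Finset.subset_univ V)]
        · refine Finset.sum_congr rfl fun l hl => ?_
          rw [if_pos hl]; ring
        · intro l _ hl
          rw [if_neg hl, mul_zero]
      · congr 1
        · rw [Finset.mul_sum]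
          exact Finset.sum_congr rfl fun l _ => by ring
        · rw [Finset.mul_sum]
          exact Finset.sum_congr rfl fun l _ => by ring
    have e2 : ∑ l ∈ V, sg x l * q l x = g x - μ := by rw [hq2 x]; ring
    have e3 : ∑ l, sg x l * p₁ l x = f₁ x - Ex f₁ := by rw [hp2 x]; ring
    have e4 : ∑ l, sg x l * p₂ l x = f₂ x - Ex f₂ := by rw [hr2 x]; ring
    rw [e1, e2, e3, e4]
    simp only [hB]
    ring
  refine ⟨Q, hQ1, ?_, ?_⟩
  · have hE : Ex (fun x => (1 + g x) / 2 * f₁ x + (1 - g x) / 2 * f₂ x)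
        = (1 + μ) / 2 * Ex f₁ + (1 - μ) / 2 * Ex f₂ := by
      rw [Ex_congr hrep, Ex_add (fun _ => _) (fun x => ∑ l, sg x l * Q l x), Ex_const, Ex_sum]
      simp only [Ex_sg_zero _ _ (hQ1 _)]
      simp
    intro x
    rw [hE]
    exact hrep x
  · intro l
    simp only [hQ]
    refine (nrm_add_le _ _).trans (add_le_add ?_ ((nrm_add_le _ _).trans (add_le_add ?_ ?_)))
    · by_cases hl : l ∈ V
      · simp only [if_pos hl]
        exact (nrm_mul_le hBb).trans (hq3 l)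
      · simp only [if_neg hl]
        unfold nrm
        simp only [ne_eq, OfNat.ofNat_ne_zero, not_false_eq_true, zero_pow]
        rw [Ex_const, Real.sqrt_zero]
    · rw [nrm_mul_left _ (by linarith)]
      exact mul_le_mul_of_nonneg_left (hp3 l) (by linarith)
    · rw [nrm_mul_left _ (by linarith)]
      exact mul_le_mul_of_nonneg_left (hr3 l) (by linarith)

end Pool.Agent.TH275.AC
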