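import Pool.Agent.TH275.AC.Cert

/-!
# Feeding a balanced gate into a coordinate
-/

set_option autoImplicit false
set_option linter.unusedSectionVars false

namespace Pool.Agent.TH275.AC

open Finset Pool.Agent.H722R2.AA Pool.Agent.H746R2.AA Pool.Agent.TH275.AL

variable {ι : Type*} [Fintype ι] [DecidableEq ι]

lemma Ex_indep (V : Finset ι) (A B : (ι → ℤˣ) → ℝ)
    (hA : ∀ x y, (∀ j ∈ V, x j = y j) → A x = A y)
    (hB : ∀ x y, (∀ j ∉ V, x j = y j) → B x = B y) :
    Ex (fun x => A x * B x) = Ex A * Ex B := by
  rw [Ex_overlay V]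
  have h1 : ∀ z y, A (V.piecewise z y) * B (V.piecewise z y) = A z * B y := by
    intro z y
    rw [hA (V.piecewise z y) z fun j hj => by simp [hj],
      hB (V.piecewise z y) y fun j hj => by simp [hj]]
  simp only [h1, Ex_mul_left, Ex_mul_right]

lemma nrm_indep (V : Finset ι) (A B : (ι → ℤˣ) → ℝ)
    (hA : ∀ x y, (∀ j ∈ V, x j = y j) → A x = A y)
    (hB : ∀ x y, (∀ j ∉ V, x j = y j) → B x = B y) :
    nrm (fun x => A x * B x) = nrm A * nrm B := by
  unfold nrm
  rw [← Real.sqrt_mul (Ex_nonneg fun x => sq_nonneg _)]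
  congr 1
  rw [← Ex_indep V (fun x => A x ^ 2) (fun x => B x ^ 2)
    (fun x y h => by simp only [hA x y h]) (fun x y h => by simp only [hB x y h])]
  exact Ex_congr fun x => mul_pow _ _ _

/-- Feeding a balanced gate into the coordinate `l`. -/
lemma cert_feed {g F : (ι → ℤˣ) → ℝ} {w w' : ι → ℝ} (hg : Cert g w') (hF : Cert F w)
    (hg1 : ∀ x, |g x| ≤ 1) (hg0 : Ex g = 0) (V : Finset ι) (l : ι) (hl : l ∉ V)
    (hV : ∀ x y, (∀ j ∈ V, x j = y j) → g x = g y)
    (hFV : ∀ x y, (∀ j ∉ V, x j = y j) → F x = F y) :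
    Cert (fun x => (1 + g x) / 2 * F (Function.update x l 1)
        + (1 - g x) / 2 * F (Function.update x l (-1)))
      (fun j => if j = l then 0 else if j ∈ V then w l * w' j else w j) := by
  obtain ⟨q, hq1, hq2, hq3, hq4⟩ := cert_restrict hg V hV
  obtain ⟨p, hp1, hp2, hp3, hp4⟩ := cert_restrict hF Vᶜ
    (fun x y h => hFV x y fun j hj => h j (by simpa using hj))
  have hlc : l ∈ Vᶜ := by simpa using hl
  have hp5 : ∀ i, ∀ j ∈ V, ∀ x u, p i (Function.update x j u) = p i x := by
    intro i j hj x u
    refine hp4 i _ _ fun k hk => ?_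
    have : k ≠ j := fun h => (by simpa using hk : k ∉ V) (h ▸ hj)
    simp [this]
  have hg5 : ∀ j ∉ V, ∀ x u, g (Function.update x j u) = g x := by
    intro j hj x u
    refine hV _ _ fun k hk => ?_
    have : k ≠ j := fun h => hj (h ▸ hk)
    simp [this]
  set Q : ι → (ι → ℤˣ) → ℝ := fun j x => if j = l then 0 else if j ∈ V then q j x * p l x else
    (1 + g x) / 2 * p j (Function.update x l 1) + (1 - g x) / 2 * p j (Function.update x l (-1))
    with hQ
  have hQ1 : ∀ j x u, Q j (Function.update x j u) = Q j x := by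
    intro j x u
    simp only [hQ]
    by_cases hj : j = l
    · rw [if_pos hj, if_pos hj]
    · rw [if_neg hj, if_neg hj]
      by_cases hjV : j ∈ V
      · rw [if_pos hjV, if_pos hjV, hq1, hp5 l j hjV]
      · rw [if_neg hjV, if_neg hjV, hg5 j hjV, Function.update_comm hj,
          Function.update_comm hj, hp1, hp1]
  have hval : ∀ (x : ι → ℤˣ) (b : ℤˣ), F (Function.update x l b)
      = Ex F + ((b : ℤ) : ℝ) * p l x
        + ∑ j ∈ Vᶜ.erase l, sg x j * p j (Function.update x l b) := by
    intro x b
    rw [hp2, ← Finset.add_sum_erase Vᶜ _ hlc, hp1, ← add_assoc]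
    congr 1
    · congr 2
      unfold sg
      simp
    · refine Finset.sum_congr rfl fun j hj => ?_
      have : j ≠ l := Finset.ne_of_mem_erase hj
      congr 1
      unfold sg
      simp [this]
  have hrep : ∀ x, (1 + g x) / 2 * F (Function.update x l 1)
        + (1 - g x) / 2 * F (Function.update x l (-1))
      = Ex F + ∑ j, sg x j * Q j x := by
    intro x
    have e1 : ∑ j, sg x j * Q j x = (∑ j ∈ V, sg x j * q j x) * p l x
        + ∑ j ∈ Vᶜ.erase l, sg x j * ((1 + g x) / 2 * p j (Function.update x l 1)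
          + (1 - g x) / 2 * p j (Function.update x l (-1))) := by
      rw [← Finset.sum_add_sum_compl V]
      congr 1
      · rw [Finset.sum_mul]
        refine Finset.sum_congr rfl fun j hj => ?_
        have : j ≠ l := fun h => hl (h ▸ hj)
        simp only [hQ]
        rw [if_neg this, if_pos hj]
        ring
      · rw [← Finset.add_sum_erase Vᶜ _ hlc]
        have e2 : sg x l * Q l x = 0 := by
          simp only [hQ, if_true, mul_zero]
        rw [e2, zero_add]
        refine Finset.sum_congr rfl fun j hj => ?_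
        have h1 : j ≠ l := Finset.ne_of_mem_erase hj
        have h2 : j ∉ V := by
          have := Finset.mem_of_mem_erase hj
          simpa using this
        simp only [hQ]
        rw [if_neg h1, if_neg h2]
    have e3 : ∑ j ∈ V, sg x j * q j x = g x := by
      have := hq2 x
      rw [hg0, zero_add] at this
      exact this.symm
    rw [e1, e3, hval x 1, hval x (-1)]
    have e4 : ∑ j ∈ Vᶜ.erase l, sg x j * ((1 + g x) / 2 * p j (Function.update x l 1)
          + (1 - g x) / 2 * p j (Function.update x l (-1)))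
        = (1 + g x) / 2 * ∑ j ∈ Vᶜ.erase l, sg x j * p j (Function.update x l 1)
          + (1 - g x) / 2 * ∑ j ∈ Vᶜ.erase l, sg x j * p j (Function.update x l (-1)) := by
      rw [Finset.mul_sum, Finset.mul_sum, ← Finset.sum_add_distrib]
      exact Finset.sum_congr rfl fun j _ => by ring
    rw [e4]
    push_cast
    ring
  refine ⟨Q, hQ1, ?_, ?_⟩
  · have hE : Ex (fun x => (1 + g x) / 2 * F (Function.update x l 1)
        + (1 - g x) / 2 * F (Function.update x l (-1))) = Ex F := by
      rw [Ex_congr hrep, Ex_add (fun _ => _) (fun x => ∑ l, sg x l * Q l x), Ex_const, Ex_sum]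
      simp only [Ex_sg_zero _ _ (hQ1 _)]
      simp
    intro x
    rw [hE]
    exact hrep x
  · intro j
    simp only [hQ]
    by_cases hj : j = l
    · simp only [if_pos hj]
      unfold nrm
      simp only [ne_eq, OfNat.ofNat_ne_zero, not_false_eq_true, zero_pow]
      rw [Ex_const, Real.sqrt_zero]
    · simp only [if_neg hj]
      by_cases hjV : j ∈ V
      · simp only [if_pos hjV]
        rw [nrm_indep V (q j) (p l) (hq4 j) (fun x y h => hp4 l x y fun k hk =>
          h k (by simpa using hk)), mul_comm]
        exact mul_le_mul (hp3 l) (hq3 j) (nrm_nonneg _) ((nrm_nonneg _).trans (hp3 l))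
      · simp only [if_neg hjV]
        refine le_trans ?_ (hp3 j)
        unfold nrm
        refine Real.sqrt_le_sqrt ?_
        set a : (ι → ℤˣ) → ℝ := fun x => p j (Function.update x l 1) with ha
        set b : (ι → ℤˣ) → ℝ := fun x => p j (Function.update x l (-1)) with hb
        have hab : ∀ (u : ℤˣ) (x y : ι → ℤˣ), (∀ k ∉ V, x k = y k) →
            p j (Function.update x l u) = p j (Function.update y l u) := by
          intro u x y h
          refine hp4 j _ _ fun k hk => ?_
          by_cases hkl : k = l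
          · subst hkl; simp
          · simp [hkl, h k (by simpa using hk)]
        have h1 : Ex (fun x => ((1 + g x) / 2 * a x + (1 - g x) / 2 * b x) ^ 2)
            ≤ Ex (fun x => (a x ^ 2 + b x ^ 2) / 2 + g x * ((a x ^ 2 - b x ^ 2) / 2)) := by
          refine Ex_mono fun x => ?_
          have h2 := abs_le.1 (hg1 x)
          nlinarith [mul_nonneg (mul_nonneg (by linarith [h2.1] : (0 : ℝ) ≤ 1 + g x)
            (by linarith [h2.2] : (0 : ℝ) ≤ 1 - g x)) (sq_nonneg (a x - b x))]
        refine h1.trans (le_of_eq ?_)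
        rw [Ex_add, Ex_indep V g (fun x => (a x ^ 2 - b x ^ 2) / 2) hV (fun x y h => by
          simp only [ha, hb, hab _ x y h]), hg0, zero_mul, add_zero]
        rw [Ex_split' l (fun x => p j x ^ 2), ← Ex_add]
        rw [show (fun x => (a x ^ 2 + b x ^ 2) / 2) = fun x => (a x ^ 2 + b x ^ 2) / (2 : ℝ) from rfl,
          Ex_div]

end Pool.Agent.TH275.AC
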