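import Pool.Agent.TH275.AC.Rounds
import Pool.Agent.H746R2.AA.Strong

/-!
# Mixtures of juntas and programs
-/

set_option autoImplicit false
set_option linter.unusedSectionVars false

namespace Pool.Agent.TH275.AC

open Finset Pool.Agent.H722R2.AA Pool.Agent.H746R2.AA Pool.Agent.TH275.AL

variable {ι : Type*} [Fintype ι] [DecidableEq ι]

/-- Programs with at most `T` rounds, the gates `g` of which satisfy `∑ j, ‖D_j g‖_∞ ≤ K`. -/
inductive RoundsSup (K : ℝ) : ℕ → Prog ι → Prop
  | out (T : ℕ) (c : ℝ) : RoundsSup K T (.fn fun _ => c)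
  | round (T : ℕ) (V : Finset ι) (g : (ι → ℤˣ) → ℝ) (yes no : Prog ι) :
      ∑ j, ⨆ x : ι → ℤˣ, |deriv g j x| ≤ K → RoundsSup K T yes → RoundsSup K T no →
      RoundsSup K (T + 1) (.ask V (.fn g) yes no)

lemma RoundsSup.rounds {K : ℝ} {T : ℕ} {p : Prog ι} (h : RoundsSup K T p) : Rounds K T p := by
  induction h with
  | out T c => exact .out T c
  | round T V g yes no hg _ _ ih1 ih2 =>
    exact .round T V g yes no ((Finset.sum_le_sum fun j _ => dnorm_le_sup g j).trans hg) ih1 ih2

lemma RoundsSup.freeze {K : ℝ} {T : ℕ} {p : Prog ι} (h : RoundsSup K T p) (C : Finset ι)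
    (z : ι → ℤˣ) : p.Valid → ∃ p' : Prog ι, RoundsSup K T p' ∧ p'.Valid ∧
      ∀ x, p'.mean x = p.mean (C.piecewise z x) := by
  induction h with
  | out T c =>
    intro hv
    exact ⟨.fn fun _ => c, .out T c, hv, fun x => rfl⟩
  | round T V g yes no hg _ _ ih1 ih2 =>
    intro hv
    obtain ⟨y', hy1, hy2, hy3⟩ := ih1 hv.2.1
    obtain ⟨n', hn1, hn2, hn3⟩ := ih2 hv.2.2.1
    refine ⟨.ask V (.fn fun x => g (C.piecewise z x)) y' n', .round T V _ y' n' ?_ hy1 hn1,
      ⟨fun x => hv.1 _, hy2, hn2, ?_, ?_⟩, ?_⟩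
    · refine (Finset.sum_le_sum fun j _ => ?_).trans hg
      have h0 : 0 ≤ ⨆ x : ι → ℤˣ, |deriv g j x| := Real.iSup_nonneg fun x => abs_nonneg _
      refine ciSup_le fun x => ?_
      by_cases hj : j ∈ C
      · have h1 : deriv (fun x => g (C.piecewise z x)) j x = 0 := by
          unfold deriv
          have h2 : ∀ u : ℤˣ, C.piecewise z (Function.update x j u) = C.piecewise z x := by
            intro u
            ext i
            by_cases hi : i ∈ C
            · simp [hi]
            · have : i ≠ j := fun h => hi (h ▸ hj)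
              simp [hi, this]
          simp only [h2, sub_self, zero_div]
        rw [h1, abs_zero]
        exact h0
      · have h1 : deriv (fun x => g (C.piecewise z x)) j x = deriv g j (C.piecewise z x) := by
          unfold deriv
          have h2 : ∀ u : ℤˣ, C.piecewise z (Function.update x j u)
              = Function.update (C.piecewise z x) j u := by
            intro u
            ext i
            by_cases hi : i = j
            · subst hi; simp [hj]
            · by_cases hiC : i ∈ C <;> simp [hi, hiC]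
          simp only [h2]
        rw [h1]
        exact le_ciSup (f := fun x : ι → ℤˣ => |deriv g j x|) (Set.finite_range _).bddAbove _
    · intro x y hxy
      refine hv.2.2.2.1 _ _ fun j hj => ?_
      by_cases hjC : j ∈ C
      · simp [hjC]
      · simp [hjC, hxy j hj]
    · intro x y hxy
      rw [hy3, hn3, hy3, hn3]
      refine hv.2.2.2.2 _ _ fun j hj => ?_
      by_cases hjC : j ∈ C
      · simp [hjC]
      · simp [hjC, hxy j hj]
    · intro x
      unfold Prog.mean
      rw [hy3, hn3]
      rfl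

/-- **The strong inequality for mixtures of juntas and programs.** -/
theorem junta_mixture {α : Type*} [Fintype α] [DecidableEq α]
    (dg : ℕ) (f : (ι → ℤˣ) → ℝ)
    (hd : ∀ S : Finset ι, dg < S.card → fc f S = 0) (B : ℝ) (hB : ∀ x, |f x| ≤ B) (k : ℕ)
    (C : α → Finset ι) (hC : ∀ i, (C i).card ≤ k)
    (J : α → (ι → ℤˣ) → ℝ) (hJ : ∀ i x y, (∀ j ∈ C i, x j = y j) → J i x = J i y)
    (K : ℝ) (hK : 0 ≤ K) (T : ℕ) (p : α → Prog ι) (hp : ∀ i, (p i).Valid)
    (hR : ∀ i, RoundsSup K T (p i))
    (hclose : Ex (fun x => (f x - mix J (fun i => (p i).mean) x) ^ 2) ≤ Cov f f / 2)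
    (M : ℝ) (hM : ∀ l, Real.sqrt (Inf f l) ≤ M) (hM0 : 0 ≤ M) :
    Cov f f ≤ (12 * k * dg * Real.sqrt ((∑ i, Ex (fun x => |J i x|)) * B)
      + 4 * (K * T) * ∑ i, Ex (fun x => |J i x|)) * M := by
  choose p' hp1 hp2 hp3 using fun (i : α) (z : ι → ℤˣ) => (hR i).freeze (C i) z (hp i)
  choose q hq1 hq2 hq3 using fun (i : α) (z : ι → ℤˣ) => (p' i z).cert (hp2 i z)
  set Q : α → (ι → ℤˣ) → ℝ := fun i => (p i).mean with hQ
  set w : ι → (ι → ℤˣ) → ℝ := fun l x => ∑ i, Ex (fun z => J i z * q i z l x) with hw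
  have hw1 : ∀ l x u, w l (Function.update x l u) = w l x := by
    intro l x u
    simp only [hw, hq1]
  have hrep : ∀ x, avg C J Q x = (∑ i, Ex (fun z => J i z * Ex (p' i z).mean))
      + ∑ l, sg x l * w l x := by
    intro x
    have e1 : avg C J Q x = ∑ i, Ex (fun z => J i z * Ex (p' i z).mean
        + ∑ l, sg x l * (J i z * q i z l x)) := by
      unfold avg
      refine Finset.sum_congr rfl fun i _ => Ex_congr fun z => ?_
      simp only [hQ]
      rw [← hp3 i z x, hq2 i z x, mul_add, Finset.mul_sum]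
      congr 1
      exact Finset.sum_congr rfl fun l _ => by ring
    rw [e1]
    have e2 : ∀ i, Ex (fun z => J i z * Ex (p' i z).mean
        + ∑ l, sg x l * (J i z * q i z l x))
        = Ex (fun z => J i z * Ex (p' i z).mean) + ∑ l, sg x l * Ex (fun z => J i z * q i z l x) := by
      intro i
      rw [Ex_add, Ex_sum]
      congr 1
      exact Finset.sum_congr rfl fun l _ => Ex_mul_left _ _
    rw [Finset.sum_congr rfl fun i _ => e2 i, Finset.sum_add_distrib, Finset.sum_comm]
    congr 1
    refine Finset.sum_congr rfl fun l _ => ?_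
    simp only [hw]
    rw [Finset.mul_sum]
  refine (strong_mix dg f hd B hB k C hC J Q hJ (fun i x => (p i).mean_le (hp i) x) hclose _ w hw1
    hrep M hM hM0).trans ?_
  refine mul_le_mul_of_nonneg_right ?_ hM0
  have h1 : ∑ l, Real.sqrt (Ex (fun x => w l x ^ 2))
      ≤ (K * T) * ∑ i, Ex (fun x => |J i x|) := by
    have e1 : ∀ l, nrm (w l) ≤ ∑ i, Ex (fun z => |J i z| * nrm (q i z l)) := by
      intro l
      refine (nrm_sum_le Finset.univ _).trans (Finset.sum_le_sum fun i _ => ?_)
      refine (nrm_Ex_le fun z x => J i z * q i z l x).trans ?_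
      refine Ex_mono fun z => ?_
      rw [← nrm_mul_left _ (abs_nonneg _)]
      unfold nrm
      refine (congrArg Real.sqrt (Ex_congr fun y => ?_)).le
      rw [mul_pow, mul_pow, sq_abs]
    calc ∑ l, nrm (w l) ≤ ∑ l, ∑ i, Ex (fun z => |J i z| * nrm (q i z l)) :=
          Finset.sum_le_sum fun l _ => e1 l
      _ = ∑ i, Ex (fun z => |J i z| * ∑ l, nrm (q i z l)) := by
          rw [Finset.sum_comm]
          refine Finset.sum_congr rfl fun i _ => ?_
          rw [← Ex_sum]
          exact Ex_congr fun z => by rw [Finset.mul_sum]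
      _ ≤ ∑ i, Ex (fun z => |J i z| * (K * T)) := by
          refine Finset.sum_le_sum fun i _ => Ex_mono fun z => ?_
          refine mul_le_mul_of_nonneg_left ?_ (abs_nonneg _)
          exact (Finset.sum_le_sum fun l _ => hq3 i z l).trans
            (((p' i z).weight_sum (hp2 i z)).trans (cost_rounds hK (hp1 i z).rounds (hp2 i z)))
      _ = (K * T) * ∑ i, Ex (fun x => |J i x|) := by
          rw [Finset.mul_sum]
          refine Finset.sum_congr rfl fun i _ => ?_
          rw [Ex_mul_right]; ring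
  linarith

end Pool.Agent.TH275.AC
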