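import Pool.Agent.TH275.AC.Rank

/-!
# Polynomials of few linear forms that are bounded on the solid cube: the derivatives
-/

set_option autoImplicit false
set_option linter.unusedSectionVars false

namespace Pool.Agent.TH275.AC

open Finset Polynomial Pool.Agent.H722R2.AA Pool.Agent.H746R2.AA Pool.Agent.TH275.AL

variable {ι : Type*} [Fintype ι] [DecidableEq ι] {r : ℕ}

/-- The vector of the linear forms with coefficients `a`. -/
noncomputable def lf (a : Fin r → ι → ℝ) : (ι → ℝ) →ₗ[ℝ] (Fin r → ℝ) :=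
  Matrix.mulVecLin (Matrix.of a)

lemma lf_apply (a : Fin r → ι → ℝ) (y : ι → ℝ) (i : Fin r) : lf a y i = ∑ j, a i j * y j := rfl

/-- `P` of the linear forms is bounded by `1` on the solid cube. -/
def BddS (a : Fin r → ι → ℝ) (P : MvPolynomial (Fin r) ℝ) : Prop :=
  ∀ y : ι → ℝ, (∀ j, |y j| ≤ 1) → |MvPolynomial.eval (lf a y) P| ≤ 1

lemma line_lf (P : MvPolynomial (Fin r) ℝ) (a : Fin r → ι → ℝ) (y v : ι → ℝ) (t : ℝ) :
    (line P (lf a y) (lf a v)).eval t = MvPolynomial.eval (lf a (y + t • v)) P := by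
  rw [line_eval, map_add, map_smul]
  rfl

lemma line_lf_deriv (P : MvPolynomial (Fin r) ℝ) (a : Fin r → ι → ℝ) (y v : ι → ℝ) (t : ℝ) :
    (derivative (line P (lf a y) (lf a v))).eval t = dP P (lf a (y + t • v)) (lf a v) := by
  rw [line_deriv, map_add, map_smul]
  rfl

lemma dP_vertex (P : MvPolynomial (Fin r) ℝ) {d : ℕ} (hP : P.totalDegree ≤ d)
    (a : Fin r → ι → ℝ) (hb : BddS a P) (y : ι → ℝ) (hy : ∀ j, |y j| ≤ 1) (e : ι → ℝ)
    (he : ∀ j, |e j| ≤ 1) : |dP P (lf a y) (lf a e)| ≤ 2 * (d : ℝ) ^ 2 := by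
  have key : ∀ e : ι → ℝ, (∀ j, |e j| ≤ 1) →
      |dP P (lf a y) (lf a (e - y))| ≤ 2 * (d : ℝ) ^ 2 := by
    intro e he
    have h1 := markov_left (n := d) (P := line P (lf a y) (lf a (e - y))) (m := 1) (u := 0) (v := 1)
      one_pos (line_deg P hP _ _) (by
        intro t ht
        rw [line_lf]
        refine hb _ fun j => ?_
        have h2 : (y + t • (e - y)) j = (1 - t) * y j + t * e j := by
          simp only [Pi.add_apply, Pi.smul_apply, Pi.sub_apply, smul_eq_mul]; ring
        rw [h2]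
        calc |(1 - t) * y j + t * e j| ≤ |(1 - t) * y j| + |t * e j| := abs_add_le _ _
          _ = (1 - t) * |y j| + t * |e j| := by
              rw [abs_mul, abs_mul, abs_of_nonneg ht.1, abs_of_nonneg (by linarith [ht.2])]
          _ ≤ (1 - t) * 1 + t * 1 := add_le_add
              (mul_le_mul_of_nonneg_left (hy j) (by linarith [ht.2]))
              (mul_le_mul_of_nonneg_left (he j) ht.1)
          _ = 1 := by ring)
    rw [line_lf_deriv, zero_smul, add_zero] at h1
    simpa using h1
  have h1 := key e he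
  have h2 := key (-e) (fun j => by rw [Pi.neg_apply, abs_neg]; exact he j)
  have h3 : dP P (lf a y) (lf a e)
      = (dP P (lf a y) (lf a (e - y)) - dP P (lf a y) (lf a (-e - y))) / 2 := by
    have h4 : lf a (e - y) = (2 : ℝ) • lf a e + lf a (-e - y) := by
      rw [← map_smul, ← map_add]
      congr 1
      rw [two_smul]
      abel
    rw [h4, dP_add, dP_smul]
    ring
  rw [h3, abs_div, abs_of_pos (two_pos : (0 : ℝ) < 2), div_le_iff₀ two_pos]
  calc _ ≤ |dP P (lf a y) (lf a (e - y))| + |dP P (lf a y) (lf a (-e - y))| := abs_sub _ _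
    _ ≤ _ := by linarith

lemma abs_sg (x : ι → ℤˣ) (j : ι) : |sg x j| = 1 := by
  unfold sg
  rcases Int.units_eq_one_or (x j) with h | h <;> rw [h] <;> simp

/-- **Few linear forms.** The sum of the suprema of the derivatives. -/
theorem rank_bound (P : MvPolynomial (Fin r) ℝ) {d : ℕ} (hP : P.totalDegree ≤ d)
    (a : Fin r → ι → ℝ) (hb : BddS a P) :
    ∃ w : ι → ℝ, (∀ j, 0 ≤ w j) ∧ ∑ j, w j ≤ 2 * r * (d : ℝ) ^ 2 ∧
      ∀ j x, |D (fun x => MvPolynomial.eval (lf a (sg x)) P) j x| ≤ w j := by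
  classical
  set W : Submodule ℝ (Fin r → ℝ) :=
    Submodule.span ℝ (Set.range fun e : ι → ℤˣ => lf a (sg e)) with hW
  let s : (ι → ℤˣ) → W := fun e => ⟨lf a (sg e), Submodule.subset_span ⟨e, rfl⟩⟩
  have hs : Submodule.span ℝ (Set.range s) = ⊤ := by
    have h1 : Set.range s
        = ((↑) : W → (Fin r → ℝ)) ⁻¹' (Set.range fun e : ι → ℤˣ => lf a (sg e)) := by
      ext z
      constructor
      · rintro ⟨e, rfl⟩
        exact ⟨e, rfl⟩
      · rintro ⟨e, he⟩
        exact ⟨e, Subtype.ext he⟩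
    rw [h1]
    exact Submodule.span_span_coe_preimage
  obtain ⟨b, hbe, hbc⟩ := auerbach s hs
  choose e he using hbe
  have hδ : ∀ j, lf a (Pi.single j 1) ∈ W := by
    intro j
    have h1 : (Pi.single j 1 : ι → ℝ)
        = (1 / 2 : ℝ) • (sg (Function.update (1 : ι → ℤˣ) j 1)
          - sg (Function.update (1 : ι → ℤˣ) j (-1))) := by
      ext i
      by_cases hi : i = j
      · subst hi
        simp [sg]; norm_num
      · simp [sg, hi]
    rw [h1, map_smul, map_sub]
    exact W.smul_mem _ (W.sub_mem (Submodule.subset_span ⟨_, rfl⟩) (Submodule.subset_span ⟨_, rfl⟩))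
  set φ : Fin (Module.finrank ℝ W) → ι → ℝ := fun i j => b.coord i ⟨lf a (Pi.single j 1), hδ j⟩
    with hφ
  have hexp : ∀ j, lf a (Pi.single j 1) = ∑ i, φ i j • lf a (sg (e i)) := by
    intro j
    have h1 := b.sum_repr ⟨lf a (Pi.single j 1), hδ j⟩
    have h2 : ((∑ i, b.repr ⟨lf a (Pi.single j 1), hδ j⟩ i • b i : W) : Fin r → ℝ)
        = lf a (Pi.single j 1) := congrArg (Subtype.val) h1
    rw [← h2, AddSubmonoidClass.coe_finsetSum]
    refine Finset.sum_congr rfl fun i _ => ?_
    rw [he i]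
    rfl
  have hφsum : ∀ i, ∑ j, |φ i j| ≤ 1 := by
    intro i
    choose x hx using fun j => exists_sign (φ i j)
    have h1 : s x = ∑ j, (sg x j) • (⟨lf a (Pi.single j 1), hδ j⟩ : W) := by
      apply Subtype.ext
      rw [AddSubmonoidClass.coe_finsetSum]
      show lf a (sg x) = ∑ j, sg x j • lf a (Pi.single j 1)
      simp_rw [← map_smul]
      rw [← map_sum]
      congr 1
      ext k
      rw [Finset.sum_apply, Finset.sum_eq_single k]
      · simp
      · intro j _ hj
        simp [hj.symm]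
      · simp
    have h2 : b.coord i (s x) = ∑ j, |φ i j| := by
      rw [h1, map_sum]
      refine Finset.sum_congr rfl fun j _ => ?_
      rw [map_smul, smul_eq_mul, mul_comm, ← hx j]
      rfl
    rw [← h2]
    exact (le_abs_self _).trans (hbc i x)
  refine ⟨fun j => ∑ i, |φ i j| * (2 * (d : ℝ) ^ 2), fun j => Finset.sum_nonneg fun i _ =>
    mul_nonneg (abs_nonneg _) (by positivity), ?_, fun j x => ?_⟩
  · rw [Finset.sum_comm]
    calc ∑ i, ∑ j, |φ i j| * (2 * (d : ℝ) ^ 2)
        ≤ ∑ _i : Fin (Module.finrank ℝ W), 2 * (d : ℝ) ^ 2 := by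
          refine Finset.sum_le_sum fun i _ => ?_
          rw [← Finset.sum_mul]
          calc _ ≤ 1 * (2 * (d : ℝ) ^ 2) :=
                mul_le_mul_of_nonneg_right (hφsum i) (by positivity)
            _ = _ := one_mul _
      _ = (Module.finrank ℝ W : ℝ) * (2 * (d : ℝ) ^ 2) := by simp
      _ ≤ (r : ℝ) * (2 * (d : ℝ) ^ 2) := by
          refine mul_le_mul_of_nonneg_right ?_ (by positivity)
          have h1 : Module.finrank ℝ W ≤ r := (Submodule.finrank_le W).trans (by simp)
          exact_mod_cast h1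
      _ = _ := by ring
  · set y : ι → ℝ := sg (Function.update x j (-1)) with hy
    have hend : sg (Function.update x j 1) = y + (2 : ℝ) • (Pi.single j 1 : ι → ℝ) := by
      ext i
      by_cases hi : i = j
      · subst hi
        simp [hy, sg]; norm_num
      · simp [hy, sg, hi]
    have hcube : ∀ t ∈ Set.Icc (0 : ℝ) 2, ∀ i, |(y + t • (Pi.single j 1 : ι → ℝ)) i| ≤ 1 := by
      intro t ht i
      by_cases hi : i = j
      · subst hi
        have h1 : (y + t • (Pi.single i 1 : ι → ℝ)) i = -1 + t := by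
          simp [hy, sg]
        rw [h1, abs_le]
        exact ⟨by linarith [ht.1], by linarith [ht.2]⟩
      · have h1 : (y + t • (Pi.single j 1 : ι → ℝ)) i = y i := by
          simp [hi]
        rw [h1, hy, abs_sg]
    have hM := abs_eval_sub_le (P := line P (lf a y) (lf a (Pi.single j 1)))
      (M := ∑ i, |φ i j| * (2 * (d : ℝ) ^ 2)) (u := 0) (v := 2) (s := 0) (t := 2)
      (by
        intro t ht
        rw [line_lf_deriv]
        rw [hexp j, dP_sum]
        refine (Finset.abs_sum_le_sum_abs _ _).trans (Finset.sum_le_sum fun i _ => ?_)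
        rw [dP_smul, abs_mul]
        exact mul_le_mul_of_nonneg_left (dP_vertex P hP a hb _ (hcube t ht) _
          fun k => (abs_sg _ _).le) (abs_nonneg _))
      (by constructor <;> norm_num) (by constructor <;> norm_num)
    rw [line_lf, line_lf, zero_smul, add_zero, ← hend] at hM
    have h3 : |D (fun x => MvPolynomial.eval (lf a (sg x)) P) j x|
        = |MvPolynomial.eval (lf a (sg (Function.update x j 1))) P
          - MvPolynomial.eval (lf a y) P| / 2 := by
      unfold D
      rw [abs_div, abs_of_pos (two_pos : (0 : ℝ) < 2)]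
    rw [h3, div_le_iff₀ two_pos]
    refine hM.trans (le_of_eq ?_)
    norm_num

end Pool.Agent.TH275.AC
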