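import Pool.Agent.TH275.AC.Feed
import Pool.Agent.TH275.AC.RankB

/-!
# Programs with gates
-/

set_option autoImplicit false
set_option linter.unusedSectionVars false

namespace Pool.Agent.TH275.AC

open Finset Pool.Agent.H722R2.AA Pool.Agent.H746R2.AA Pool.Agent.TH275.AL

/-- Programs. A program `p` has a mean value `mean p x ∈ [-1,1]` on the input `x`.
`fn g`: the given function `g`.
`ask V g yes no`: run `g` (which reads the coordinates in `V`), toss a coin with this mean; then
continue with `yes` or with `no`.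
`feed V l g F`: run `F` on the input in which the coordinate `l` is replaced by a coin with the mean
given by the program `g` (which reads the coordinates in `V`). -/
inductive Prog (ι : Type*) : Type _
  | fn (g : (ι → ℤˣ) → ℝ) : Prog ι
  | ask (V : Finset ι) (g yes no : Prog ι) : Prog ι
  | feed (V : Finset ι) (l : ι) (g F : Prog ι) : Prog ι

variable {ι : Type*} [Fintype ι] [DecidableEq ι]

/-- Mean over the uniform cube. -/
noncomputable def E (g : (ι → ℤˣ) → ℝ) : ℝ := (∑ x, g x) / (2 : ℝ) ^ Fintype.card ι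

/-- The discrete derivative. -/
noncomputable def deriv (g : (ι → ℤˣ) → ℝ) (j : ι) (x : ι → ℤˣ) : ℝ :=
  (g (Function.update x j 1) - g (Function.update x j (-1))) / 2

/-- The `L²` norm of the discrete derivative. -/
noncomputable def dnorm (g : (ι → ℤˣ) → ℝ) (j : ι) : ℝ := Real.sqrt (E fun x => deriv g j x ^ 2)

/-- The mean value of a program. -/
noncomputable def Prog.mean : Prog ι → (ι → ℤˣ) → ℝ
  | .fn g, x => g x
  | .ask _ g yes no, x => (1 + g.mean x) / 2 * yes.mean x + (1 - g.mean x) / 2 * no.mean x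
  | .feed _ l g F, x => (1 + g.mean x) / 2 * F.mean (Function.update x l 1)
      + (1 - g.mean x) / 2 * F.mean (Function.update x l (-1))

/-- The functions used take values in `[-1,1]`; a gate depends on the coordinates in `V` only; the
difference of the two continuations after a gate does not depend on the coordinates in `V`
(for instance because they are not read any more); a gate which is fed into a coordinate of `F` is
balanced, and `F` does not depend on the coordinates which it reads. -/
def Prog.Valid : Prog ι → Prop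
  | .fn g => ∀ x, |g x| ≤ 1
  | .ask V g yes no => g.Valid ∧ yes.Valid ∧ no.Valid ∧
      (∀ x y, (∀ j ∈ V, x j = y j) → g.mean x = g.mean y) ∧
      (∀ x y, (∀ j ∉ V, x j = y j) → yes.mean x - no.mean x = yes.mean y - no.mean y)
  | .feed V l g F => g.Valid ∧ F.Valid ∧ l ∉ V ∧ E g.mean = 0 ∧
      (∀ x y, (∀ j ∈ V, x j = y j) → g.mean x = g.mean y) ∧
      (∀ x y, (∀ j ∉ V, x j = y j) → F.mean x = F.mean y)

/-- The weights of the coordinates. -/
noncomputable def Prog.weight : Prog ι → ι → ℝ
  | .fn g, j => dnorm g j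
  | .ask V g yes no, j => (if j ∈ V then g.weight j else 0)
      + ((1 + E g.mean) / 2 * yes.weight j + (1 - E g.mean) / 2 * no.weight j)
  | .feed V l g F, j => if j = l then 0 else if j ∈ V then F.weight l * g.weight j else F.weight j

/-- The cost of a program: the expected sum of the costs of the gates on the path. -/
noncomputable def Prog.cost : Prog ι → ℝ
  | .fn g => ∑ j, dnorm g j
  | .ask _ g yes no => g.cost + ((1 + E g.mean) / 2 * yes.cost + (1 - E g.mean) / 2 * no.cost)
  | .feed _ _ g F => F.cost * max 1 g.cost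

lemma E_eq (g : (ι → ℤˣ) → ℝ) : E g = Ex g := rfl

lemma dnorm_eq (g : (ι → ℤˣ) → ℝ) (j : ι) : dnorm g j = nrm (D g j) := rfl

lemma convex_abs {u a b : ℝ} (hu : |u| ≤ 1) (ha : |a| ≤ 1) (hb : |b| ≤ 1) :
    |(1 + u) / 2 * a + (1 - u) / 2 * b| ≤ 1 := by
  have h1 := abs_le.1 hu
  calc |(1 + u) / 2 * a + (1 - u) / 2 * b| ≤ |(1 + u) / 2 * a| + |(1 - u) / 2 * b| := abs_add_le _ _
    _ = (1 + u) / 2 * |a| + (1 - u) / 2 * |b| := by
        rw [abs_mul, abs_mul, abs_of_nonneg (by linarith [h1.1] : 0 ≤ (1 + u) / 2),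
          abs_of_nonneg (by linarith [h1.2] : 0 ≤ (1 - u) / 2)]
    _ ≤ (1 + u) / 2 * 1 + (1 - u) / 2 * 1 := add_le_add
        (mul_le_mul_of_nonneg_left ha (by linarith [h1.1]))
        (mul_le_mul_of_nonneg_left hb (by linarith [h1.2]))
    _ = 1 := by ring

lemma Prog.mean_le : ∀ p : Prog ι, p.Valid → ∀ x, |p.mean x| ≤ 1
  | .fn _, h, x => h x
  | .ask _ g yes no, h, x =>
    convex_abs (Prog.mean_le g h.1 x) (Prog.mean_le yes h.2.1 x) (Prog.mean_le no h.2.2.1 x)
  | .feed _ _ g F, h, x =>
    convex_abs (Prog.mean_le g h.1 x) (Prog.mean_le F h.2.1 _) (Prog.mean_le F h.2.1 _)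

lemma E_le {g : (ι → ℤˣ) → ℝ} (h : ∀ x, |g x| ≤ 1) : |E g| ≤ 1 :=
  (abs_Ex_le g).trans (Ex_le_const h)

lemma Prog.cert : ∀ p : Prog ι, p.Valid → Cert p.mean p.weight
  | .fn g, _ => cert_fn g
  | .ask V g yes no, h =>
    cert_ask (Prog.cert g h.1) (Prog.cert yes h.2.1) (Prog.cert no h.2.2.1)
      (Prog.mean_le g h.1) (Prog.mean_le yes h.2.1) (Prog.mean_le no h.2.2.1) V h.2.2.2.1 h.2.2.2.2
  | .feed V l g F, h =>
    cert_feed (Prog.cert g h.1) (Prog.cert F h.2.1) (Prog.mean_le g h.1) h.2.2.2.1 V l h.2.2.1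
      h.2.2.2.2.1 h.2.2.2.2.2

lemma dnorm_nonneg (g : (ι → ℤˣ) → ℝ) (j : ι) : 0 ≤ dnorm g j := Real.sqrt_nonneg _

lemma Prog.weight_nonneg : ∀ p : Prog ι, p.Valid → ∀ j, 0 ≤ p.weight j
  | .fn g, _, j => dnorm_nonneg g j
  | .ask V g yes no, h, j => by
    have h1 := abs_le.1 (E_le (Prog.mean_le g h.1))
    have h2 := Prog.weight_nonneg g h.1 j
    have h3 := Prog.weight_nonneg yes h.2.1 j
    have h4 := Prog.weight_nonneg no h.2.2.1 j
    unfold Prog.weight
    refine add_nonneg (by split_ifs <;> [exact h2; exact le_rfl]) (add_nonneg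
      (mul_nonneg (by linarith [h1.1]) h3) (mul_nonneg (by linarith [h1.2]) h4))
  | .feed V l g F, h, j => by
    have h2 := Prog.weight_nonneg g h.1 j
    have h3 := Prog.weight_nonneg F h.2.1 j
    have h4 := Prog.weight_nonneg F h.2.1 l
    unfold Prog.weight
    split_ifs
    · exact le_rfl
    · exact mul_nonneg h4 h2
    · exact h3

lemma Prog.weight_sum : ∀ p : Prog ι, p.Valid → ∑ j, p.weight j ≤ p.cost
  | .fn _, _ => le_rfl
  | .ask V g yes no, h => by
    have h1 := abs_le.1 (E_le (Prog.mean_le g h.1))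
    have h2 := Prog.weight_sum g h.1
    have h3 := Prog.weight_sum yes h.2.1
    have h4 := Prog.weight_sum no h.2.2.1
    unfold Prog.weight Prog.cost
    rw [Finset.sum_add_distrib, Finset.sum_add_distrib, ← Finset.mul_sum, ← Finset.mul_sum]
    refine add_le_add ?_ (add_le_add (mul_le_mul_of_nonneg_left h3 (by linarith [h1.1]))
      (mul_le_mul_of_nonneg_left h4 (by linarith [h1.2])))
    refine (Finset.sum_le_sum fun j _ => ?_).trans h2
    split_ifs
    · exact le_rfl
    · exact Prog.weight_nonneg g h.1 j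
  | .feed V l g F, h => by
    have h2 := Prog.weight_sum g h.1
    have h3 := Prog.weight_sum F h.2.1
    have hFn := Prog.weight_nonneg F h.2.1
    have hgn := Prog.weight_nonneg g h.1
    unfold Prog.weight Prog.cost
    have e1 : ∑ j, (if j = l then 0 else if j ∈ V then F.weight l * g.weight j else F.weight j)
        ≤ F.weight l * g.cost + ∑ j ∈ Finset.univ.erase l, F.weight j := by
      rw [← Finset.add_sum_erase Finset.univ _ (Finset.mem_univ l), if_pos rfl, zero_add]
      have e2 : ∀ j ∈ Finset.univ.erase l,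
          (if j = l then 0 else if j ∈ V then F.weight l * g.weight j else F.weight j)
          ≤ F.weight l * g.weight j + F.weight j := by
        intro j hj
        rw [if_neg (Finset.ne_of_mem_erase hj)]
        split_ifs
        · linarith [hFn j]
        · have := mul_nonneg (hFn l) (hgn j)
          linarith
      refine (Finset.sum_le_sum e2).trans ?_
      rw [Finset.sum_add_distrib, ← Finset.mul_sum]
      have e3 : ∑ j ∈ Finset.univ.erase l, g.weight j ≤ g.cost :=
        (Finset.sum_le_sum_of_subset_of_nonneg (Finset.erase_subset _ _)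
          fun j _ _ => hgn j).trans h2
      have := mul_le_mul_of_nonneg_left e3 (hFn l)
      linarith
    refine e1.trans ?_
    have e4 : F.weight l * g.cost ≤ F.weight l * max 1 g.cost :=
      mul_le_mul_of_nonneg_left (le_max_right _ _) (hFn l)
    have e5 : ∑ j ∈ Finset.univ.erase l, F.weight j
        ≤ (∑ j ∈ Finset.univ.erase l, F.weight j) * max 1 g.cost := by
      have e6 : 0 ≤ ∑ j ∈ Finset.univ.erase l, F.weight j := Finset.sum_nonneg fun j _ => hFn j
      nlinarith [le_max_left (1 : ℝ) g.cost]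
    have e7 : F.weight l + ∑ j ∈ Finset.univ.erase l, F.weight j = ∑ j, F.weight j :=
      Finset.add_sum_erase Finset.univ _ (Finset.mem_univ l)
    calc F.weight l * g.cost + ∑ j ∈ Finset.univ.erase l, F.weight j
        ≤ (F.weight l + ∑ j ∈ Finset.univ.erase l, F.weight j) * max 1 g.cost := by
          rw [add_mul]; exact add_le_add e4 e5
      _ ≤ F.cost * max 1 g.cost := by
          rw [e7]
          exact mul_le_mul_of_nonneg_right h3 (le_trans zero_le_one (le_max_left _ _))

/-- The largest `L²` norm of a derivative. -/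
noncomputable def maxDeriv (f : (ι → ℤˣ) → ℝ) : ℝ := ⨆ j : ι, dnorm f j

lemma dnorm_le_max (f : (ι → ℤˣ) → ℝ) (j : ι) : dnorm f j ≤ maxDeriv f :=
  le_ciSup (f := fun j : ι => dnorm f j) (Set.finite_range _).bddAbove j

lemma maxDeriv_nonneg (f : (ι → ℤˣ) → ℝ) : 0 ≤ maxDeriv f :=
  Real.iSup_nonneg fun j => dnorm_nonneg f j

/-- The covariance inequality. -/
theorem Prog.cov (p : Prog ι) (hp : p.Valid) (h : (ι → ℤˣ) → ℝ) :
    |E (fun x => p.mean x * h x) - E p.mean * E h| ≤ ∑ j, p.weight j * dnorm h j :=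
  (Prog.cert p hp).cov h

theorem Prog.cov_max (p : Prog ι) (hp : p.Valid) (h : (ι → ℤˣ) → ℝ) :
    |Cov p.mean h| ≤ p.cost * maxDeriv h := by
  refine ((Prog.cert p hp).cov h).trans ?_
  calc ∑ l, p.weight l * nrm (D h l) ≤ ∑ l, p.weight l * maxDeriv h :=
        Finset.sum_le_sum fun l _ =>
          mul_le_mul_of_nonneg_left (dnorm_le_max h l) (Prog.weight_nonneg p hp l)
    _ = (∑ l, p.weight l) * maxDeriv h := by rw [Finset.sum_mul]
    _ ≤ p.cost * maxDeriv h :=
        mul_le_mul_of_nonneg_right (Prog.weight_sum p hp) (maxDeriv_nonneg h)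

lemma abs_Cov_le (f g : (ι → ℤˣ) → ℝ) :
    |Cov f g| ≤ Real.sqrt (Cov f f) * Real.sqrt (Ex fun x => g x ^ 2) := by
  have h1 : Cov f g = Ex (fun x => (f x - Ex f) * g x) := by
    unfold Cov
    have : ∀ x, (f x - Ex f) * g x = f x * g x - Ex f * g x := fun x => by ring
    rw [Ex_congr this, Ex_sub, Ex_mul_left]
  have h2 : Cov f f = Ex (fun x => (f x - Ex f) ^ 2) := by
    unfold Cov
    have : ∀ x, (f x - Ex f) ^ 2 = f x * f x - 2 * Ex f * f x + Ex f ^ 2 := fun x => by ring
    rw [Ex_congr this, Ex_add (fun x => f x * f x - 2 * Ex f * f x) (fun _ => Ex f ^ 2), Ex_sub,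
      Ex_mul_left, Ex_const]
    ring
  rw [h1, h2]
  exact abs_Ex_mul_le _ _

/-- **The strong inequality for functions approximated by combinations of programs.** -/
theorem approx {σ : Type*} [Fintype σ] (f : (ι → ℤˣ) → ℝ) (c : σ → ℝ) (p : σ → Prog ι)
    (hp : ∀ s, (p s).Valid)
    (hclose : Ex (fun x => (f x - ∑ s, c s * (p s).mean x) ^ 2) ≤ Cov f f / 2) :
    Cov f f ≤ 4 * (∑ s, |c s| * (p s).cost) * maxDeriv f := by
  set g : (ι → ℤˣ) → ℝ := fun x => ∑ s, c s * (p s).mean x with hg
  set V := Cov f f with hV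
  have hV0 : 0 ≤ V := Cov_self_nonneg f
  have h1 : V = Cov f g + Cov f (fun x => f x - g x) := by
    simp only [hV]
    unfold Cov
    rw [Ex_sub f g]
    have : ∀ x, f x * (f x - g x) = f x * f x - f x * g x := fun x => by ring
    rw [Ex_congr this, Ex_sub]
    ring
  have h2 : |Cov f (fun x => f x - g x)| ≤ (3 / 4) * V := by
    refine (abs_Cov_le f _).trans ?_
    rw [← Real.sqrt_mul hV0]
    rw [Real.sqrt_le_left (by positivity)]
    calc V * Ex (fun x => (f x - g x) ^ 2) ≤ V * (V / 2) :=
          mul_le_mul_of_nonneg_left hclose hV0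
      _ ≤ ((3 / 4) * V) ^ 2 := by nlinarith [sq_nonneg V]
  have h3 : |Cov f g| ≤ (∑ s, |c s| * (p s).cost) * maxDeriv f := by
    have e1 : Cov f g = ∑ s, c s * Cov (p s).mean f := by
      unfold Cov
      have e2 : ∀ x, f x * g x = ∑ s, c s * ((p s).mean x * f x) := by
        intro x
        simp only [hg]
        rw [Finset.mul_sum]
        exact Finset.sum_congr rfl fun s _ => by ring
      have e3 : Ex g = ∑ s, c s * Ex (p s).mean := by
        simp only [hg]
        rw [Ex_sum]
        exact Finset.sum_congr rfl fun s _ => Ex_mul_left _ _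
      rw [Ex_congr e2, Ex_sum, e3, Finset.mul_sum, ← Finset.sum_sub_distrib]
      refine Finset.sum_congr rfl fun s _ => ?_
      rw [Ex_mul_left]
      ring
    rw [e1, Finset.sum_mul]
    refine (Finset.abs_sum_le_sum_abs _ _).trans (Finset.sum_le_sum fun s _ => ?_)
    rw [abs_mul, mul_assoc]
    exact mul_le_mul_of_nonneg_left ((p s).cov_max (hp s) f) (abs_nonneg _)
  have h4 := le_abs_self (Cov f g)
  have h5 := le_abs_self (Cov f (fun x => f x - g x))
  linarith

end Pool.Agent.TH275.AC
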