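import Pool.Agent.TH275.AL.Dense
import Pool.Agent.H746R2.AA.Weak

/-!
# Polynomials of few linear forms that are bounded on the solid cube
-/

set_option autoImplicit false
set_option linter.unusedSectionVars false

namespace Pool.Agent.TH275.AC

open Finset Polynomial Pool.Agent.H722R2.AA Pool.Agent.H746R2.AA Pool.Agent.TH275.AL

/-- Auerbach's lemma for a finite spanning family. -/
lemma auerbach {V : Type*} [AddCommGroup V] [Module ℝ V] [FiniteDimensional ℝ V]
    {E : Type*} [Finite E] (s : E → V) (hs : Submodule.span ℝ (Set.range s) = ⊤) :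
    ∃ (b : Module.Basis (Fin (Module.finrank ℝ V)) ℝ V), (∀ i, ∃ e, b i = s e) ∧
      ∀ i e, |b.coord i (s e)| ≤ 1 := by
  classical
  obtain ⟨f, hf1, hf2, hf3⟩ := Submodule.exists_fun_fin_finrank_span_eq ℝ (Set.range s)
  have hcard : Module.finrank ℝ V = Module.finrank ℝ (Submodule.span ℝ (Set.range s)) := by
    rw [hs, finrank_top]
  set b0 : Module.Basis (Fin (Module.finrank ℝ V)) ℝ V := Module.finBasis ℝ V with hb0
  choose e1 he1 using hf1
  let g : Fin (Module.finrank ℝ V) → E := fun i => e1 (Fin.cast hcard i)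
  have hg : LinearIndependent ℝ (s ∘ g) := by
    have h1 : s ∘ g = f ∘ (Fin.cast hcard) := by
      funext i
      simp only [g, Function.comp_apply, he1]
    rw [h1]
    exact hf3.comp _ (Fin.cast_injective hcard)
  have hgd : b0.det (s ∘ g) ≠ 0 := by
    have h1 : Submodule.span ℝ (Set.range (s ∘ g)) = ⊤ :=
      hg.span_eq_top_of_card_eq_finrank' (by simp)
    exact ((Module.Basis.is_basis_iff_det b0).1 ⟨hg, h1⟩).ne_zero
  have : Nonempty (Fin (Module.finrank ℝ V) → E) := ⟨g⟩
  obtain ⟨m, hm⟩ := Finite.exists_max (fun e : Fin (Module.finrank ℝ V) → E => |b0.det (s ∘ e)|)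
  have hmd : b0.det (s ∘ m) ≠ 0 := by
    have := hm g
    intro h
    rw [h, abs_zero] at this
    exact hgd (abs_nonpos_iff.1 this)
  obtain ⟨hli, hsp⟩ := (Module.Basis.is_basis_iff_det b0).2 (isUnit_iff_ne_zero.2 hmd)
  refine ⟨Module.Basis.mk hli hsp.ge, fun i => ⟨m i, ?_⟩, fun i e => ?_⟩
  · rw [Module.Basis.mk_apply]; rfl
  · have h1 := b0.det_smul_mk_coord_eq_det_update hli hsp.ge i
    have h2 := LinearMap.congr_fun h1 (s e)
    rw [LinearMap.smul_apply, smul_eq_mul, MultilinearMap.toLinearMap_apply] at h2
    have h3 : Function.update (s ∘ m) i (s e) = s ∘ (Function.update m i e) := by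
      rw [Function.comp_update]
    rw [h3] at h2
    have h4 := hm (Function.update m i e)
    have h5 : |b0.det (s ∘ m)| * |(Module.Basis.mk hli hsp.ge).coord i (s e)|
        = |b0.det (s ∘ Function.update m i e)| := by
      rw [← abs_mul, h2]
      rfl
    have h6 : 0 < |b0.det (s ∘ m)| := abs_pos.2 hmd
    have h7 : |b0.det (s ∘ m)| * |(Module.Basis.mk hli hsp.ge).coord i (s e)|
        ≤ |b0.det (s ∘ m)| * 1 := by
      rw [h5, mul_one]; exact h4
    exact le_of_mul_le_mul_left h7 h6

section line

variable {r : ℕ}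

/-- The restriction of a polynomial to a line. -/
noncomputable def line (P : MvPolynomial (Fin r) ℝ) (u v : Fin r → ℝ) : ℝ[X] :=
  MvPolynomial.aeval (fun i => C (u i) + C (v i) * X) P

lemma line_eval (P : MvPolynomial (Fin r) ℝ) (u v : Fin r → ℝ) (t : ℝ) :
    (line P u v).eval t = MvPolynomial.eval (fun i => u i + t * v i) P := by
  unfold line
  induction P using MvPolynomial.induction_on with
  | C a => simp
  | add p q hp hq => simp only [map_add, eval_add, hp, hq]
  | mul_X p i hp =>
    simp only [map_mul, eval_mul, hp, MvPolynomial.aeval_X, MvPolynomial.eval_X, eval_add, eval_C,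
      eval_X]
    ring

lemma line_deg (P : MvPolynomial (Fin r) ℝ) {d : ℕ} (hP : P.totalDegree ≤ d) (u v : Fin r → ℝ) :
    (line P u v).natDegree ≤ d := by
  have h := MvPolynomial.aeval_natDegree_le (n := 1) P hP (fun i => C (u i) + C (v i) * X)
    (fun i => by
      refine natDegree_add_le_of_degree_le ?_ ?_
      · rw [natDegree_C]; omega
      · exact (natDegree_C_mul_le _ _).trans natDegree_X_le)
  rw [mul_one] at h
  exact h

/-- The directional derivative. -/
noncomputable def dP (P : MvPolynomial (Fin r) ℝ) (u : Fin r → ℝ) (v : Fin r → ℝ) : ℝ :=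
  ∑ k, v k * MvPolynomial.eval u (MvPolynomial.pderiv k P)

lemma line_deriv (P : MvPolynomial (Fin r) ℝ) (u v : Fin r → ℝ) (t : ℝ) :
    (derivative (line P u v)).eval t = dP P (fun i => u i + t * v i) v := by
  unfold dP
  induction P using MvPolynomial.induction_on with
  | C a => simp [line]
  | add p q hp hq =>
    have h1 : line (p + q) u v = line p u v + line q u v := by simp [line]
    rw [h1, derivative_add, eval_add, hp, hq, ← Finset.sum_add_distrib]
    refine Finset.sum_congr rfl fun k _ => ?_
    rw [map_add, map_add, mul_add]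
  | mul_X p i hp =>
    have h1 : line (p * MvPolynomial.X i) u v = line p u v * (C (u i) + C (v i) * X) := by
      simp [line]
    have h2 : derivative (C (u i) + C (v i) * X : ℝ[X]) = C (v i) := by simp
    rw [h1, derivative_mul, h2, eval_add, eval_mul, eval_mul, hp, line_eval]
    simp only [eval_add, eval_C, eval_mul, eval_X, Derivation.leibniz, MvPolynomial.pderiv_X,
      smul_eq_mul, map_add, map_mul, MvPolynomial.eval_X, mul_add]
    rw [Finset.sum_add_distrib]
    have h3 : ∑ k, v k * ((MvPolynomial.eval fun i => u i + t * v i) p *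
        (MvPolynomial.eval fun i => u i + t * v i)
          (Pi.single (M := fun _ => MvPolynomial (Fin r) ℝ) k 1 i))
        = (MvPolynomial.eval fun i => u i + t * v i) p * v i := by
      rw [Finset.sum_eq_single i]
      · simp; ring
      · intro k _ hk
        simp [Pi.single_apply, hk.symm]
      · simp
    rw [h3]
    have h4 : ∑ k, v k * ((u i + t * v i)
          * (MvPolynomial.eval fun i => u i + t * v i) ((MvPolynomial.pderiv k) p))
        = (u i + t * v i)
          * ∑ k, v k * (MvPolynomial.eval fun i => u i + t * v i) ((MvPolynomial.pderiv k) p) := by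
      rw [Finset.mul_sum]
      refine Finset.sum_congr rfl fun k _ => ?_
      ring
    rw [h4]
    ring

lemma dP_add (P : MvPolynomial (Fin r) ℝ) (u v w : Fin r → ℝ) :
    dP P u (v + w) = dP P u v + dP P u w := by
  unfold dP
  rw [← Finset.sum_add_distrib]
  exact Finset.sum_congr rfl fun k _ => by rw [Pi.add_apply, add_mul]

lemma dP_smul (P : MvPolynomial (Fin r) ℝ) (u v : Fin r → ℝ) (c : ℝ) :
    dP P u (c • v) = c * dP P u v := by
  unfold dP
  rw [Finset.mul_sum]
  exact Finset.sum_congr rfl fun k _ => by rw [Pi.smul_apply, smul_eq_mul, mul_assoc]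

lemma dP_sum {I : Type*} (T : Finset I) (P : MvPolynomial (Fin r) ℝ) (u : Fin r → ℝ)
    (v : I → Fin r → ℝ) : dP P u (∑ i ∈ T, v i) = ∑ i ∈ T, dP P u (v i) := by
  classical
  induction T using Finset.induction_on with
  | empty => simp [dP]
  | insert a T ha ih => rw [Finset.sum_insert ha, Finset.sum_insert ha, dP_add, ih]

end line

end Pool.Agent.TH275.AC
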