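import Pool.Agent.TH275.AC.Prog

/-!
# Programs with `T` rounds
-/

set_option autoImplicit false
set_option linter.unusedSectionVars false

namespace Pool.Agent.TH275.AC

open Finset Pool.Agent.H722R2.AA Pool.Agent.H746R2.AA Pool.Agent.TH275.AL

variable {ι : Type*} [Fintype ι] [DecidableEq ι]

/-- Programs with at most `T` rounds: in every round the gate is a function `g` whose derivatives
have `L²` norms with sum at most `K`; the gate, and the set `V` of coordinates which it reads, may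
depend on the outcomes of the previous rounds; at the end a real number is returned. -/
inductive Rounds (K : ℝ) : ℕ → Prog ι → Prop
  | out (T : ℕ) (c : ℝ) : Rounds K T (.fn fun _ => c)
  | round (T : ℕ) (V : Finset ι) (g : (ι → ℤˣ) → ℝ) (yes no : Prog ι) :
      ∑ j, dnorm g j ≤ K → Rounds K T yes → Rounds K T no →
      Rounds K (T + 1) (.ask V (.fn g) yes no)

/-- The variance over the uniform cube. -/
noncomputable def variance (f : (ι → ℤˣ) → ℝ) : ℝ := E (fun x => f x ^ 2) - E f ^ 2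

lemma variance_eq (f : (ι → ℤˣ) → ℝ) : variance f = Cov f f := by
  unfold variance Cov E Ex
  simp only [sq]

lemma cost_const (c : ℝ) : (Prog.fn (fun _ : ι → ℤˣ => c)).cost = 0 := by
  unfold Prog.cost
  refine Finset.sum_eq_zero fun j _ => ?_
  unfold dnorm deriv
  have : E (fun _ : ι → ℤˣ => ((c - c) / 2) ^ 2) = 0 := by
    unfold E
    simp
  rw [this, Real.sqrt_zero]

lemma cost_rounds {K : ℝ} (hK : 0 ≤ K) {T : ℕ} {p : Prog ι} (h : Rounds K T p) :
    p.Valid → p.cost ≤ K * T := by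
  induction h with
  | out T c =>
    intro _
    rw [cost_const]
    positivity
  | round T V g yes no hg _ _ ih1 ih2 =>
    intro hv
    have h1 := abs_le.1 (E_le (Prog.mean_le (Prog.fn g) hv.1))
    have h2 := ih1 hv.2.1
    have h3 := ih2 hv.2.2.1
    unfold Prog.cost
    have h4 := mul_le_mul_of_nonneg_left h2 (by linarith [h1.1] : 0 ≤ (1 + E (Prog.fn g).mean) / 2)
    have h5 := mul_le_mul_of_nonneg_left h3 (by linarith [h1.2] : 0 ≤ (1 - E (Prog.fn g).mean) / 2)
    have h6 : (Prog.fn g).cost ≤ K := hg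
    push_cast
    calc (Prog.fn g).cost + ((1 + E (Prog.fn g).mean) / 2 * yes.cost
          + (1 - E (Prog.fn g).mean) / 2 * no.cost)
        ≤ K + ((1 + E (Prog.fn g).mean) / 2 * (K * T) + (1 - E (Prog.fn g).mean) / 2 * (K * T)) :=
          add_le_add h6 (add_le_add h4 h5)
      _ = K * (T + 1) := by ring

theorem low_rank {r d : ℕ} (a : Fin r → ι → ℝ) (P : MvPolynomial (Fin r) ℝ)
    (hP : P.totalDegree ≤ d)
    (hb : ∀ y : ι → ℝ, (∀ j, |y j| ≤ 1) →
      |MvPolynomial.eval (fun i => ∑ j, a i j * y j) P| ≤ 1) :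
    ∑ j, ⨆ x : ι → ℤˣ, |deriv (fun x => MvPolynomial.eval
      (fun i => ∑ j, a i j * ((x j : ℤ) : ℝ)) P) j x| ≤ 2 * r * (d : ℝ) ^ 2 := by
  obtain ⟨w, hw0, hws, hw⟩ := rank_bound P hP a hb
  refine (Finset.sum_le_sum fun j _ => ?_).trans hws
  exact ciSup_le fun x => hw j x

lemma dnorm_le_sup (g : (ι → ℤˣ) → ℝ) (j : ι) : dnorm g j ≤ ⨆ x : ι → ℤˣ, |deriv g j x| := by
  have h0 : 0 ≤ ⨆ x : ι → ℤˣ, |deriv g j x| := Real.iSup_nonneg fun x => abs_nonneg _
  refine Real.sqrt_le_iff.2 ⟨h0, ?_⟩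
  refine Ex_le_const fun x => ?_
  rw [← sq_abs]
  exact pow_le_pow_left₀ (abs_nonneg _)
    (le_ciSup (f := fun x : ι → ℤˣ => |deriv g j x|) (Set.finite_range _).bddAbove x) 2

end Pool.Agent.TH275.AC
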